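import Pool.Agent.helper55.RI.SpecG
import Pool.Agent.helper63.RI.F4

set_option autoImplicit false

namespace Pool.Agent.RI

open Pool.Agent.helper62 Prog Function Pool.Agent.helper81.PL

theorem G10 (hG1 : G1_stmt) : G10_stmt := by
  intro A f hA hf hinj hiso
  obtain ⟨hfs, hsn, hpr, hfsp, hsnp, -, -⟩ := hG1
  obtain ⟨hPT, -, -, -⟩ := uF1
  apply F4 uF1 f
  obtain ⟨h, g, hh, hg, hgh, hhg, hmem⟩ := hiso
  have hh' := (hPT h).mp hh
  have hg' := (hPT g).mp hg
  refine ⟨f '' cyl A, Set.image_subset_range _ _, ?_, ?_⟩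
  · obtain ⟨x, hx⟩ := hA
    refine ⟨f (pr x []), pr x [], ?_, rfl⟩
    show fs (pr x []) ∈ A
    rw [hfsp]
    exact hx
  · refine ⟨fun w => h (pr (fs (g (fs w))) w), fun v => sn (g v), (hPT _).mpr ?_, (hPT _).mpr ?_,
      ?_, ?_⟩
    · have h1 : PT (fun w : W => fs (g (fs w))) := PT.comp hfs (PT.comp hg' hfs)
      have h2 : PT (fun w : W => pr (fs (g (fs w))) w) :=
        PT.comp (f := fun w : W => (fs (g (fs w)), w)) hpr (PT.pair h1 (by fun_prop))
      exact PT.comp hh' h2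
    · exact PT.comp hsn hg'
    · intro x y
      beta_reduce
      rw [hgh, hsnp]
    · intro x y
      beta_reduce
      rw [← hmem, hfsp]
      show fs (pr (fs (g x)) (pr x y)) ∈ A ↔ _
      rw [hfsp]
      have h3 : g x ∈ cyl A ↔ h (g x) ∈ f '' cyl A := hmem (g x)
      rw [hhg] at h3
      exact h3

end Pool.Agent.RI
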